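import Pool.Agent.Helper91K1.PQ.Stm3

/-!
# Piece AVG: an average (helper61)
-/

set_option autoImplicit false

open MeasureTheory Filter Topology Finset

namespace Pool.Agent.Helper61A.PQ

open Pool.Agent.Helper91K1.PQ

open Classical in
theorem t_AVG : S_AVG := by
  intro u v K huv hK S E hE
  have hcount : ∀ y, ((S.filter (fun N => y ∈ E N)).card : ℝ) =
      ∑ N ∈ S, (E N).indicator (fun _ => (1 : ℝ)) y := by
    intro y
    rw [Finset.card_filter]
    push_cast
    refine Finset.sum_congr rfl fun N _ => ?_
    by_cases h : y ∈ E N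
    · rw [Set.indicator_of_mem h]; simp [h]
    · rw [Set.indicator_of_notMem h]; simp [h]
  have hmeasf : Measurable fun y => ∑ N ∈ S, (E N).indicator (fun _ => (1 : ℝ)) y :=
    Finset.measurable_fun_sum S fun N _ => measurable_const.indicator (hE N)
  have hF : MeasurableSet {y : ℝ | K ≤ ((S.filter (fun N => y ∈ E N)).card : ℝ)} := by
    have h1 : {y : ℝ | K ≤ ((S.filter (fun N => y ∈ E N)).card : ℝ)} =
        {y | K ≤ ∑ N ∈ S, (E N).indicator (fun _ => (1 : ℝ)) y} := by
      ext y
      rw [Set.mem_setOf_eq, Set.mem_setOf_eq, hcount]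
    rw [h1]
    exact measurableSet_le measurable_const hmeasf
  refine ⟨hF, ?_⟩
  set F := {y : ℝ | K ≤ ((S.filter (fun N => y ∈ E N)).card : ℝ)} with hFdef
  have hint : ∀ s : Set ℝ, MeasurableSet s → Integrable (s.indicator (fun _ => (1 : ℝ)))
      (volume.restrict (Set.Icc u v)) := fun s hs =>
    (integrable_const (1 : ℝ)).indicator hs
  have h1 : ∑ N ∈ S, volume.real (E N ∩ Set.Icc u v) =
      ∫ y in Set.Icc u v, ∑ N ∈ S, (E N).indicator (fun _ => (1 : ℝ)) y := by
    rw [integral_finset_sum _ fun N _ => hint _ (hE N)]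
    refine Finset.sum_congr rfl fun N _ => ?_
    rw [integral_indicator_const _ (hE N), measureReal_restrict_apply (hE N), smul_eq_mul, mul_one]
  have h2 : (S.card : ℝ) * volume.real (F ∩ Set.Icc u v) + K * (v - u) =
      ∫ y in Set.Icc u v, ((S.card : ℝ) * F.indicator (fun _ => (1 : ℝ)) y + K) := by
    rw [integral_add ((hint _ hF).const_mul _) (integrable_const _), integral_const_mul,
      integral_indicator_const _ hF, measureReal_restrict_apply hF, smul_eq_mul, mul_one,
      integral_const, smul_eq_mul, measureReal_restrict_apply MeasurableSet.univ, Set.univ_inter,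
      Real.volume_real_Icc_of_le huv.le]
    ring
  rw [h1, h2]
  refine integral_mono (integrable_finset_sum _ fun N _ => hint _ (hE N))
    (((hint _ hF).const_mul _).add (integrable_const _)) fun y => ?_
  show ∑ N ∈ S, (E N).indicator (fun _ => (1 : ℝ)) y ≤
    (S.card : ℝ) * F.indicator (fun _ => (1 : ℝ)) y + K
  rw [← hcount]
  by_cases hy : y ∈ F
  · rw [Set.indicator_of_mem hy, mul_one]
    have h3 : ((S.filter (fun N => y ∈ E N)).card : ℝ) ≤ S.card := by
      exact_mod_cast Finset.card_filter_le _ _
    linarith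
  · rw [Set.indicator_of_notMem hy, mul_zero, zero_add]
    exact (not_le.1 hy).le

end Pool.Agent.Helper61A.PQ
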